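import Pool.Agent.Y755.AX.Stm

/-! AX-ATG: distances of the marked points (helper459). -/

set_option autoImplicit false

open MeasureTheory ProbabilityTheory Filter
open scoped Classical

namespace Pool.Agent.Y459.AX.ATG

open Pool.Agent.Y755.AX

/-- one step of the index -/
theorem idx_succ (A : ℤ → Bool) (x : ℤ) : idx A (x + 1) = idx A x + (if A x = true then 1 else 0) := by
  unfold idx
  rcases le_or_gt 0 x with hx | hx
  · have e1 : Finset.Ico (x + 1) 0 = ∅ := Finset.Ico_eq_empty (by omega)
    have e2 : Finset.Ico x 0 = ∅ := Finset.Ico_eq_empty (by omega)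
    have e3 : Finset.Ico 0 (x + 1) = insert x (Finset.Ico 0 x) := by
      ext y; simp only [Finset.mem_Ico, Finset.mem_insert]; omega
    rw [e1, e2, e3, Finset.filter_insert]
    split_ifs with h
    · rw [Finset.card_insert_of_notMem (by simp)]
      push_cast; ring
    · simp
  · have e1 : Finset.Ico 0 (x + 1) = ∅ := Finset.Ico_eq_empty (by omega)
    have e2 : Finset.Ico 0 x = ∅ := Finset.Ico_eq_empty (by omega)
    have e3 : Finset.Ico x 0 = insert x (Finset.Ico (x + 1) 0) := by
      ext y; simp only [Finset.mem_Ico, Finset.mem_insert]; omega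
    rw [e1, e2, e3, Finset.filter_insert]
    split_ifs with h
    · rw [Finset.card_insert_of_notMem (by simp)]
      push_cast; ring
    · simp

theorem idx_mono (A : ℤ → Bool) : Monotone (idx A) := by
  apply monotone_int_of_le_succ
  intro x
  rw [idx_succ]
  split_ifs <;> omega

/-- if the index grows by at least `n` from a point `x` of `A` on, the distance is at least `n a` -/
theorem dist_ge {a b : ℕ} {A : ℤ → Bool} (hA : Gap a b A) (n : ℕ) : ∀ x y : ℤ, x ≤ y →
    A x = true → A y = true → (n : ℤ) ≤ idx A y - idx A x → (n : ℤ) * a ≤ y - x := by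
  induction n with
  | zero => intro x y hxy _ _ _; simp; omega
  | succ n ih =>
    intro x y hxy hx hy hn
    -- the next point of A after x
    have hex : ∃ k : ℕ, A (x + 1 + k) = true := by
      obtain ⟨z, hz1, -, hz3⟩ := hA.2 (x + 1)
      exact ⟨(z - (x + 1)).toNat, by rw [Int.toNat_of_nonneg (by omega)]; rwa [add_sub_cancel]⟩
    set k := Nat.find hex with hk
    have hk1 : A (x + 1 + k) = true := Nat.find_spec hex
    have hk2 : ∀ j < k, A (x + 1 + j) ≠ true := fun j hj => Nat.find_min hex hj
    have hidx : ∀ j : ℕ, j ≤ k → idx A (x + 1 + j) = idx A x + 1 := by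
      intro j
      induction j with
      | zero => intro _; simp only [Nat.cast_zero, add_zero]; rw [idx_succ, if_pos hx]
      | succ j ihj =>
        intro hj
        have : x + 1 + ((j + 1 : ℕ) : ℤ) = (x + 1 + j) + 1 := by push_cast; ring
        rw [this, idx_succ, ihj (by omega), if_neg (hk2 j (by omega))]; ring
    have hle : x + 1 + k ≤ y := by
      by_contra hcon
      push Not at hcon
      rcases hxy.eq_or_lt with rfl | hlt
      · push_cast at hn; omega
      · have h1 : y = x + 1 + ((y - (x + 1)).toNat : ℤ) := by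
          rw [Int.toNat_of_nonneg (by omega)]; ring
        have h2 : (y - (x + 1)).toNat < k := by omega
        exact hk2 _ h2 (by rw [← h1]; exact hy)
    have h3 := ih (x + 1 + k) y hle hk1 hy (by
      rw [hidx k le_rfl]; push_cast at hn; omega)
    have h4 := hA.1 x (x + 1 + k) (by omega) hx hk1
    push_cast
    nlinarith

/-- a window of length `t b` contains `t` consecutive indices -/
theorem idx_window {a b : ℕ} {A : ℤ → Bool} (hA : Gap a b A) (t : ℕ) : ∀ x : ℤ,
    idx A x + t ≤ idx A (x + t * b) := by
  induction t with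
  | zero => intro x; simp
  | succ t ih =>
    intro x
    obtain ⟨z, hz1, hz2, hz3⟩ := hA.2 x
    have h1 := ih (x + b)
    have h2 : idx A z + 1 = idx A (z + 1) := by rw [idx_succ, if_pos hz3]
    have h3 := idx_mono A hz1
    have h4 := idx_mono A (show z + 1 ≤ x + b by omega)
    have h5 : x + ((t + 1 : ℕ) : ℤ) * b = x + b + t * b := by push_cast; ring
    rw [h5]
    push_cast
    omega

/-- every index in the range is taken by a point of `A` -/
theorem exists_idx (A : ℤ → Bool) (n : ℕ) : ∀ x i : ℤ, idx A x ≤ i → i < idx A (x + n) →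
    ∃ z : ℤ, x ≤ z ∧ z < x + n ∧ A z = true ∧ idx A z = i := by
  induction n with
  | zero => intro x i h1 h2; simp at h2; omega
  | succ n ih =>
    intro x i h1 h2
    by_cases h3 : i < idx A (x + n)
    · obtain ⟨z, hz⟩ := ih x i h1 h3
      exact ⟨z, hz.1, by push_cast; omega, hz.2.2⟩
    · have h4 : x + ((n + 1 : ℕ) : ℤ) = x + n + 1 := by push_cast; ring
      rw [h4, idx_succ] at h2
      split_ifs at h2 with h5
      · exact ⟨x + n, by omega, by push_cast; omega, h5, by omega⟩
      · omega

theorem t_ATG : S_ATG := by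
  intro a b s t A Y hA hY
  constructor
  · intro x y hxy hx hy
    simp only [att, Bool.and_eq_true] at hx hy
    have hlt : idx A x < idx A y := by
      have h1 := idx_mono A (show x + 1 ≤ y by omega)
      rw [idx_succ, if_pos hx.1] at h1
      omega
    have h2 := hY.1 _ _ hlt hx.2 hy.2
    have h3 := dist_ge hA s x y hxy.le hx.1 hy.1 h2
    push_cast
    exact h3
  · intro x
    obtain ⟨i, hi1, hi2, hi3⟩ := hY.2 (idx A x)
    have h1 := idx_window hA t x
    have h2 : x + ((t * b : ℕ) : ℤ) = x + t * b := by push_cast; ring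
    obtain ⟨z, hz1, hz2, hz3, hz4⟩ := exists_idx A (t * b) x i hi1 (by rw [h2]; omega)
    refine ⟨z, hz1, hz2, ?_⟩
    simp only [att, Bool.and_eq_true]
    exact ⟨hz3, by rw [hz4]; exact hi3⟩

end Pool.Agent.Y459.AX.ATG
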