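import Pool.Agent.Y755.AX.Stm

/-! AX-HL: the one-dependent 4-colouring of the integers from the weights of Holroyd and Liggett
(helper459). -/

set_option autoImplicit false

open MeasureTheory ProbabilityTheory Filter
open scoped Classical

namespace Pool.Agent.Y459.AX.HL

open Pool.Agent.Y755.AX

/-- the word read on `[s, s + N)` -/
def wd (s : ℤ) (N : ℕ) (e : ℤ → Fin 4) : List (Fin 4) := (List.range N).map fun i => e (s + (i : ℕ))

theorem wd_length (s : ℤ) (N : ℕ) (e : ℤ → Fin 4) : (wd s N e).length = N := by simp [wd]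

theorem wd_get (s : ℤ) (N : ℕ) (e : ℤ → Fin 4) (i : Fin (wd s N e).length) :
    (wd s N e).get i = e (s + (i : ℕ)) := by
  rw [List.get_eq_getElem]
  simp only [wd, List.getElem_map, List.getElem_range]

theorem wd_split (s : ℤ) (N M : ℕ) (e : ℤ → Fin 4) :
    wd s (N + (M + 1)) e = wd s N e ++ e (s + N) :: wd (s + N + 1) M e := by
  unfold wd
  rw [List.range_add, List.map_append, List.range_succ_eq_map]
  simp only [List.map_map, List.map_cons]
  congr 1
  congr 1
  apply List.map_congr_left
  intro i _
  simp only [Function.comp]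
  congr 1
  push_cast
  ring

/-- the probabilities of the words -/
noncomputable def pp (B : List (Fin 4) → ℕ) (x : List (Fin 4)) : ℝ :=
  B x / (2 ^ x.length * (x.length + 1).factorial)

theorem pp_nonneg (B : List (Fin 4) → ℕ) (x : List (Fin 4)) : 0 ≤ pp B x := by
  unfold pp; positivity

/-- cylinders -/
theorem cylp {ν : Measure (ℤ → Fin 4)} {p : List (Fin 4) → ℝ}
    (hν : ∀ (s : ℤ) (x : List (Fin 4)),
      ν {Y | ∀ i : Fin x.length, Y (s + (i : ℕ)) = x.get i} = ENNReal.ofReal (p x))
    (s t : ℤ) (N : ℕ) (e : ℤ → Fin 4) :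
    ν {Y | ∀ x ∈ Finset.Ico s (s + N), Y (x + t) = e x} = ENNReal.ofReal (p (wd s N e)) := by
  rw [← hν (s + t) (wd s N e)]
  congr 1
  ext Y
  simp only [Set.mem_ofPred_eq, Finset.mem_Ico]
  constructor
  · intro h i
    have hi : (i : ℕ) < N := lt_of_lt_of_eq i.2 (wd_length s N e)
    rw [wd_get, ← h (s + (i : ℕ)) ⟨by omega, by omega⟩]
    congr 1
    ring
  · rintro h x ⟨h1, h2⟩
    have h3 := h ⟨(x - s).toNat, by rw [wd_length]; omega⟩
    rw [wd_get] at h3
    simp only at h3
    rw [Int.toNat_of_nonneg (by omega)] at h3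
    rw [show s + (x - s) = x by ring] at h3
    rw [← h3]
    congr 1
    ring

theorem sum_mid {B : List (Fin 4) → ℕ}
    (hB : ∀ x y : List (Fin 4), ∑ a : Fin 4, B (x ++ a :: y) =
      2 * (x.length + y.length + 2).choose (x.length + 1) * B x * B y)
    (x y : List (Fin 4)) : ∑ a : Fin 4, pp B (x ++ a :: y) = pp B x * pp B y := by
  have h1 : ∀ a : Fin 4, pp B (x ++ a :: y) = (B (x ++ a :: y) : ℝ) *
      (1 / (2 ^ (x.length + y.length + 1) * (x.length + y.length + 2).factorial)) := by
    intro a
    unfold pp
    have : (x ++ a :: y).length = x.length + y.length + 1 := by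
      simp only [List.length_append, List.length_cons]; ring
    rw [this, div_eq_mul_one_div]
  simp only [h1]
  rw [← Finset.sum_mul]
  have h2 : (∑ a : Fin 4, (B (x ++ a :: y) : ℝ)) =
      2 * ((x.length + y.length + 2).choose (x.length + 1) : ℝ) * B x * B y := by
    have := hB x y
    exact_mod_cast this
  rw [h2]
  have h3 : ((x.length + y.length + 2).choose (x.length + 1) : ℝ) * (x.length + 1).factorial *
      (y.length + 1).factorial = (x.length + y.length + 2).factorial := by
    have := Nat.choose_mul_factorial_mul_factorial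
      (show x.length + 1 ≤ x.length + y.length + 2 by omega)
    rw [show x.length + y.length + 2 - (x.length + 1) = y.length + 1 by omega] at this
    exact_mod_cast this
  have f1 : ((x.length + 1).factorial : ℝ) ≠ 0 := by positivity
  have f2 : ((y.length + 1).factorial : ℝ) ≠ 0 := by positivity
  have f3 : ((x.length + y.length + 2).choose (x.length + 1) : ℝ) ≠ 0 := by
    have : 0 < (x.length + y.length + 2).choose (x.length + 1) := Nat.choose_pos (by omega)
    positivity
  unfold pp
  rw [← h3]
  field_simp
  ring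

theorem t_HL : S_HLB → S_KOL → S_DEPC → S_STAC → S_HL := by
  rintro ⟨B, hB0, hBaa, hBs⟩ hK hD hS
  have hp0 : pp B [] = 1 := by simp [pp, hB0]
  obtain ⟨ν, hνp, hν⟩ := hK (pp B) (pp_nonneg B) hp0
    (fun x => by rw [sum_mid hBs x [], hp0, mul_one])
    (fun x => by have := sum_mid hBs [] x; rwa [hp0, one_mul] at this)
  refine ⟨ν, hνp, ?_, ?_, ?_⟩
  · -- stationarity
    refine hS (Fin 4) ν hνp fun s N e => ?_
    have h1 := cylp hν s 1 N e
    have h2 := cylp hν s 0 N e
    simp only [add_zero] at h2
    rw [h1]
    exact h2.symm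
  · -- dependence
    refine hD (Fin 4) 1 ν hνp fun N e => ?_
    set x := wd (-(N : ℤ)) N e with hx
    set y := wd 1 N e with hy
    have h1 : ν (cyl (Finset.Ico (-(N : ℤ)) 0) e) = ENNReal.ofReal (pp B x) := by
      have := cylp hν (-(N : ℤ)) 0 N e
      simp only [add_zero, neg_add_cancel] at this
      exact this
    have h2 : ν (cyl (Finset.Ico ((1 : ℕ) : ℤ) ((1 : ℕ) + N)) e) = ENNReal.ofReal (pp B y) := by
      have := cylp hν 1 0 N e
      simp only [add_zero] at this
      simpa [cyl] using this
    rw [h1, h2, ← ENNReal.ofReal_mul (pp_nonneg B x), ← sum_mid hBs x y,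
      ENNReal.ofReal_sum_of_nonneg fun a _ => pp_nonneg B _]
    set F := cyl (Finset.Ico (-(N : ℤ)) 0) e ∩ cyl (Finset.Ico ((1 : ℕ) : ℤ) ((1 : ℕ) + N)) e with hF
    have hm : ∀ a : Fin 4, MeasurableSet ((fun Y : ℤ → Fin 4 => Y 0) ⁻¹' {a}) := fun a =>
      measurable_pi_apply 0 (measurableSet_singleton a)
    have h3 : ∀ a : Fin 4, ν ((fun Y : ℤ → Fin 4 => Y 0) ⁻¹' {a} ∩ F) =
        ENNReal.ofReal (pp B (x ++ a :: y)) := by
      intro a
      have h4 := cylp hν (-(N : ℤ)) 0 (N + (N + 1)) (Function.update e 0 a)
      rw [wd_split] at h4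
      have e1 : wd (-(N : ℤ)) N (Function.update e 0 a) = x := by
        rw [hx]; unfold wd
        apply List.map_congr_left
        intro i hi
        rw [List.mem_range] at hi
        rw [Function.update_of_ne (by omega)]
      have e2 : wd (-(N : ℤ) + N + 1) N (Function.update e 0 a) = y := by
        rw [hy, neg_add_cancel, zero_add]; unfold wd
        apply List.map_congr_left
        intro i hi
        rw [Function.update_of_ne (by omega)]
      rw [e1, e2, neg_add_cancel, Function.update_self] at h4
      rw [← h4]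
      congr 1
      ext Y
      simp only [hF, cyl, Set.mem_inter_iff, Set.mem_preimage, Set.mem_singleton_iff,
        Set.mem_ofPred_eq, Finset.mem_Ico, add_zero]
      constructor
      · rintro ⟨g0, g1, g2⟩ z ⟨hz1, hz2⟩
        rcases lt_trichotomy z 0 with hz | hz | hz
        · rw [Function.update_of_ne hz.ne]; exact g1 z ⟨hz1, hz⟩
        · subst hz; rw [Function.update_self]; exact g0
        · rw [Function.update_of_ne hz.ne']
          exact g2 z ⟨by push_cast; omega, by push_cast at hz2 ⊢; omega⟩
      · intro g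
        refine ⟨?_, ?_, ?_⟩
        · have := g 0 ⟨by omega, by push_cast; omega⟩
          rwa [Function.update_self] at this
        · rintro z ⟨hz1, hz2⟩
          have := g z ⟨hz1, by push_cast; omega⟩
          rwa [Function.update_of_ne hz2.ne] at this
        · rintro z ⟨hz1, hz2⟩
          push_cast at hz1 hz2
          have := g z ⟨by omega, by push_cast; omega⟩
          rwa [Function.update_of_ne (by omega)] at this
    have h5 := sum_measure_preimage_singleton (μ := ν.restrict F)
      (Finset.univ : Finset (Fin 4)) (f := fun Y : ℤ → Fin 4 => Y 0) (fun a _ => hm a)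
    simp only [Measure.restrict_apply (hm _), h3, Finset.coe_univ, Set.preimage_univ,
      Measure.restrict_apply_univ] at h5
    exact h5.symm
  · -- proper colouring
    rw [ae_all_iff]
    intro i
    rw [ae_iff]
    simp only [ne_eq, not_not]
    refine measure_mono_null (t := ⋃ a : Fin 4, {Y : ℤ → Fin 4 | ∀ x ∈ Finset.Ico i (i + (2 : ℕ)),
      Y (x + 0) = a}) ?_ (measure_iUnion_null fun a => ?_)
    · intro Y hY
      rw [Set.mem_iUnion]
      refine ⟨Y i, ?_⟩
      simp only [Set.mem_ofPred_eq, Finset.mem_Ico, add_zero] at hY ⊢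
      rintro x ⟨h1, h2⟩
      have : x = i ∨ x = i + 1 := by push_cast at h2; omega
      rcases this with rfl | rfl
      · rfl
      · exact hY.symm
    · rw [cylp hν i 0 2 fun _ => a]
      have : wd i 2 (fun _ => a) = [] ++ a :: a :: [] := by simp [wd, List.range_succ]
      rw [this, pp, hBaa]
      simp

end Pool.Agent.Y459.AX.HL
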